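import Pool.Agent.H236Z.Hall.Main

/-! The strong form of Hall's conjecture on random triangles is false. -/

theorem Pool.Agent.Results.MP_92974c_pr.ASquare.result :
    ∃ n : ℕ, 2 ≤ n ∧ ∃ S : Set (EuclideanSpace ℝ (Fin n)),
      Convex ℝ S ∧ Bornology.IsBounded S ∧ (interior S).Nonempty ∧ IsClosed S ∧
        ∃ φ : ℝ, Pool.Agent.H236Z.Hall.F (Metric.closedBall (0 : EuclideanSpace ℝ (Fin n)) 1) φ <
          Pool.Agent.H236Z.Hall.F S φ :=
  Pool.Agent.H236Z.Hall.main
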